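import Mathlib

/-!
# Lie algebras with a grading operator and a simple largest eigenvalue

Linear algebra over a field `F` of characteristic zero. `h a`, `a ∈ n`, are integers and `x` is
homogeneous of degree `j` if `x a b = 0` unless `h a = h b + j`.
-/

set_option autoImplicit false
set_option linter.unusedSectionVars false

namespace Pool.Agent.H851.CY

open Matrix

variable {F n : Type} [Field F] [CharZero F] [Fintype n] [DecidableEq n]

/-- homogeneous matrices of degree `j` -/
def Hom (h : n → ℤ) (j : ℤ) (x : Matrix n n F) : Prop := ∀ a b, h a ≠ h b + j → x a b = 0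

/-- the homogeneous component of degree `j` -/
def comp (h : n → ℤ) (j : ℤ) (x : Matrix n n F) : Matrix n n F :=
  fun a b => if h a = h b + j then x a b else 0

/-- the grading operator -/
def dg (F : Type) [Field F] (h : n → ℤ) : Matrix n n F := Matrix.diagonal fun a => (h a : F)

theorem hom_comp (h : n → ℤ) (j : ℤ) (x : Matrix n n F) : Hom h j (comp h j x) := by
  intro a b hab
  unfold comp
  rw [if_neg hab]

theorem comp_hom {h : n → ℤ} {j : ℤ} {x : Matrix n n F} (hx : Hom h j x) : comp h j x = x := by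
  ext a b
  unfold comp
  split_ifs with hab
  · rfl
  · exact (hx a b hab).symm

theorem dg_comm {h : n → ℤ} (x : Matrix n n F) (a b : n) :
    (dg F h * x - x * dg F h) a b = ((h a - h b : ℤ) : F) * x a b := by
  unfold dg
  rw [Matrix.sub_apply, Matrix.diagonal_mul, Matrix.mul_diagonal]
  push_cast
  ring

theorem hom_iff {h : n → ℤ} {j : ℤ} {x : Matrix n n F} :
    Hom h j x ↔ dg F h * x - x * dg F h = (j : F) • x := by
  constructor
  · intro hx
    ext a b
    rw [dg_comm, Matrix.smul_apply, smul_eq_mul]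
    by_cases hab : h a = h b + j
    · rw [hab, add_sub_cancel_left]
    · rw [hx a b hab, mul_zero, mul_zero]
  · intro hx a b hab
    have h1 := congrFun (congrFun hx a) b
    rw [dg_comm, Matrix.smul_apply, smul_eq_mul] at h1
    have h2 : ((h a - h b - j : ℤ) : F) * x a b = 0 := by
      push_cast at h1 ⊢
      linear_combination h1
    rcases mul_eq_zero.1 h2 with h3 | h3
    · exact absurd (by have := Int.cast_eq_zero.1 h3; omega) hab
    · exact h3

/-- a subspace stable under the bracket with the grading operator contains the homogeneous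
components of its elements -/
theorem comp_mem {h : n → ℤ} {L : Submodule F (Matrix n n F)}
    (hL : ∀ x ∈ L, dg F h * x - x * dg F h ∈ L) {x : Matrix n n F} (hx : x ∈ L) (j : ℤ) :
    comp h j x ∈ L := by
  classical
  -- the set of the degrees
  let s : Finset ℤ := Finset.univ.image fun p : n × n => h p.1 - h p.2
  -- multiply by all `(D - k)` for `k ≠ j`
  have key : ∀ t : Finset ℤ, (Matrix.of fun a b => (∏ k ∈ t, ((h a - h b - k : ℤ) : F)) * x a b :
      Matrix n n F) ∈ L := by
    intro t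
    induction t using Finset.induction_on with
    | empty =>
      have e : (Matrix.of fun a b => (∏ k ∈ (∅ : Finset ℤ), ((h a - h b - k : ℤ) : F)) * x a b) = x := by
        ext a b
        rw [Matrix.of_apply, Finset.prod_empty, one_mul]
      rw [e]
      exact hx
    | insert k t hk ih =>
      have h1 := L.sub_mem (hL _ ih) (L.smul_mem ((k : ℤ) : F) ih)
      have e : (Matrix.of fun a b => (∏ k ∈ insert k t, ((h a - h b - k : ℤ) : F)) * x a b) =
          (dg F h * (Matrix.of fun a b => (∏ k ∈ t, ((h a - h b - k : ℤ) : F)) * x a b) -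
            (Matrix.of fun a b => (∏ k ∈ t, ((h a - h b - k : ℤ) : F)) * x a b) * dg F h) -
          ((k : ℤ) : F) • (Matrix.of fun a b => (∏ k ∈ t, ((h a - h b - k : ℤ) : F)) * x a b) := by
        ext a b
        rw [Matrix.sub_apply, dg_comm, Matrix.smul_apply, smul_eq_mul, Matrix.of_apply,
          Matrix.of_apply, Finset.prod_insert hk]
        push_cast
        ring
      rw [e]
      exact h1
  have h1 := key (s.erase j)
  have h2 := L.smul_mem (∏ k ∈ s.erase j, ((j - k : ℤ) : F))⁻¹ h1
  have h3 : ∏ k ∈ s.erase j, ((j - k : ℤ) : F) ≠ 0 := by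
    rw [Finset.prod_ne_zero_iff]
    intro k hk
    have := Finset.ne_of_mem_erase hk
    exact Int.cast_ne_zero.2 (by omega)
  have e : comp h j x = (∏ k ∈ s.erase j, ((j - k : ℤ) : F))⁻¹ •
      (Matrix.of fun a b => (∏ k ∈ s.erase j, ((h a - h b - k : ℤ) : F)) * x a b) := ?_
  · rw [e]
    exact h2
  ext a b
  rw [Matrix.smul_apply, smul_eq_mul, Matrix.of_apply]
  unfold comp
  split_ifs with hab
  · have h4 : h a - h b = j := by omega
    rw [h4, ← mul_assoc, inv_mul_cancel₀ h3, one_mul]
  · have h4 : h a - h b ∈ s.erase j :=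
      Finset.mem_erase.2 ⟨by omega, Finset.mem_image.2 ⟨(a, b), Finset.mem_univ _, rfl⟩⟩
    have h5 : ∏ k ∈ s.erase j, ((h a - h b - k : ℤ) : F) = 0 :=
      Finset.prod_eq_zero h4 (by simp)
    rw [h5, zero_mul, mul_zero]

/-- a matrix is the sum of its components -/
theorem sum_comp (h : n → ℤ) (x : Matrix n n F) :
    x = ∑ j ∈ Finset.univ.image (fun p : n × n => h p.1 - h p.2), comp h j x := by
  classical
  ext a b
  rw [Matrix.sum_apply, Finset.sum_eq_single (h a - h b)]
  · unfold comp
    rw [if_pos (by ring)]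
  · intro j _ hj
    unfold comp
    rw [if_neg]
    intro hab
    apply hj
    omega
  · intro hab
    exact absurd (Finset.mem_image.2 ⟨(a, b), Finset.mem_univ _, rfl⟩) hab

theorem hom_mul {h : n → ℤ} {i j : ℤ} {x y : Matrix n n F} (hx : Hom h i x) (hy : Hom h j y) :
    Hom h (i + j) (x * y) := by
  intro a b hab
  rw [Matrix.mul_apply]
  refine Finset.sum_eq_zero fun c _ => ?_
  by_cases h1 : h a = h c + i
  · by_cases h2 : h c = h b + j
    · exact absurd (by omega) hab
    · rw [hy c b h2, mul_zero]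
  · rw [hx a c h1, zero_mul]

theorem hom_bracket {h : n → ℤ} {i j : ℤ} {x y : Matrix n n F} (hx : Hom h i x) (hy : Hom h j y) :
    Hom h (i + j) (x * y - y * x) := by
  intro a b hab
  rw [Matrix.sub_apply, hom_mul hx hy a b hab, hom_mul hy hx a b (by rwa [add_comm j i]), sub_zero]

/-- **Key lemma.** Let `L` be an irreducible Lie algebra of matrices which contains the grading operator
(or is stable under it), and let `a₀` be the only index with the largest value of `h`. Then the vectors
of degree `h a₀ - 1` are the images of the basis vector `a₀` under the elements of degree `-1` of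
`L`. -/
theorem first_step {h : n → ℤ} {L : Submodule F (Matrix n n F)}
    (hbr : ∀ x ∈ L, ∀ y ∈ L, x * y - y * x ∈ L)
    (hD : ∀ x ∈ L, dg F h * x - x * dg F h ∈ L) (a₀ : n) (htop : ∀ a, a ≠ a₀ → h a < h a₀)
    (hirr : ∀ W : Submodule F (n → F), (∀ x ∈ L, ∀ w ∈ W, x *ᵥ w ∈ W) → W = ⊥ ∨ W = ⊤)
    (z : n → F) (hz : ∀ a, h a ≠ h a₀ - 1 → z a = 0) :
    ∃ x ∈ L, Hom h (-1) x ∧ x *ᵥ Pi.single a₀ 1 = z := by
  classical
  set e : n → F := Pi.single a₀ 1 with he
  -- the subspace generated by `e` under the elements of negative degree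
  let P : Submodule F (n → F) → Prop := fun S =>
    e ∈ S ∧ ∀ j : ℤ, j < 0 → ∀ x ∈ L, Hom h j x → ∀ w ∈ S, x *ᵥ w ∈ S
  let B : Submodule F (n → F) := sInf {S | P S}
  have hB1 : e ∈ B := by
    rw [Submodule.mem_sInf]
    exact fun S hS => hS.1
  have hB2 : ∀ j : ℤ, j < 0 → ∀ x ∈ L, Hom h j x → ∀ w ∈ B, x *ᵥ w ∈ B := by
    intro j hj x hx hxj w hw
    rw [Submodule.mem_sInf] at hw ⊢
    exact fun S hS => hS.2 j hj x hx hxj w (hw S hS)
  have hB3 : ∀ S, P S → B ≤ S := fun S hS => sInf_le hS
  -- `B` is stable under the elements of degree at least zero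
  let S' : Submodule F (n → F) :=
    { carrier := {w | w ∈ B ∧ ∀ j : ℤ, 0 ≤ j → ∀ x ∈ L, Hom h j x → x *ᵥ w ∈ B}
      add_mem' := by
        rintro u w ⟨h1, h2⟩ ⟨h3, h4⟩
        refine ⟨B.add_mem h1 h3, fun j hj x hx hxj => ?_⟩
        rw [Matrix.mulVec_add]
        exact B.add_mem (h2 j hj x hx hxj) (h4 j hj x hx hxj)
      zero_mem' := ⟨B.zero_mem, fun j _ x _ _ => by rw [Matrix.mulVec_zero]; exact B.zero_mem⟩
      smul_mem' := by
        rintro c w ⟨h1, h2⟩
        refine ⟨B.smul_mem c h1, fun j hj x hx hxj => ?_⟩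
        rw [Matrix.mulVec_smul]
        exact B.smul_mem c (h2 j hj x hx hxj) }
  have hS' : P S' := by
    constructor
    · refine ⟨hB1, fun j hj x hx hxj => ?_⟩
      have h1 : x *ᵥ e = x a₀ a₀ • e := by
        ext a
        rw [he, Matrix.mulVec_single_one, Matrix.col_apply, Pi.smul_apply, smul_eq_mul]
        by_cases ha : a = a₀
        · subst ha
          rw [Pi.single_eq_same, mul_one]
        · rw [Pi.single_eq_of_ne ha, mul_zero]
          apply hxj
          have := htop a ha
          omega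
      rw [h1]
      exact B.smul_mem _ hB1
    · intro i hi y hy hyi w hw
      refine ⟨hB2 i hi y hy hyi w hw.1, fun j hj x hx hxj => ?_⟩
      have h1 : x *ᵥ (y *ᵥ w) = y *ᵥ (x *ᵥ w) + (x * y - y * x) *ᵥ w := by
        rw [Matrix.sub_mulVec, ← Matrix.mulVec_mulVec, ← Matrix.mulVec_mulVec]
        abel
      rw [h1]
      refine B.add_mem (hB2 i hi y hy hyi _ (hw.2 j hj x hx hxj)) ?_
      have h2 := hom_bracket hxj hyi
      rcases lt_or_ge (j + i) 0 with h3 | h3
      · exact hB2 _ h3 _ (hbr x hx y hy) h2 w hw.1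
      · exact hw.2 _ h3 _ (hbr x hx y hy) h2
  have hBst : ∀ x ∈ L, ∀ w ∈ B, x *ᵥ w ∈ B := by
    intro x hx w hw
    have h1 : ∀ j : ℤ, comp h j x *ᵥ w ∈ B := by
      intro j
      rcases lt_or_ge j 0 with h2 | h2
      · exact hB2 j h2 _ (comp_mem hD hx j) (hom_comp h j x) w hw
      · exact (hB3 S' hS' hw).2 j h2 _ (comp_mem hD hx j) (hom_comp h j x)
    rw [sum_comp h x, Matrix.sum_mulVec]
    exact B.sum_mem fun j _ => h1 j
  have hBtop : B = ⊤ := by
    rcases hirr B hBst with h1 | h1
    · rw [h1, Submodule.mem_bot] at hB1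
      have := congrFun hB1 a₀
      rw [he, Pi.single_eq_same] at this
      exact absurd this one_ne_zero
    · exact h1
  -- the parts of degree at least `h a₀ - 1`
  let C : Submodule F (n → F) :=
    { carrier := {w | ∃ x ∈ L, Hom h (-1) x ∧ ∀ a, h a = h a₀ - 1 → w a = (x *ᵥ e) a}
      add_mem' := by
        rintro u w ⟨x, h1, h2, h3⟩ ⟨y, h4, h5, h6⟩
        refine ⟨x + y, L.add_mem h1 h4, fun a b hab => ?_, fun a ha => ?_⟩
        · rw [Matrix.add_apply, h2 a b hab, h5 a b hab, add_zero]
        · rw [Pi.add_apply, h3 a ha, h6 a ha, Matrix.add_mulVec, Pi.add_apply]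
      zero_mem' := ⟨0, L.zero_mem, fun a b _ => rfl, fun a _ => by
        rw [Matrix.zero_mulVec]⟩
      smul_mem' := by
        rintro c w ⟨x, h1, h2, h3⟩
        refine ⟨c • x, L.smul_mem c h1, fun a b hab => ?_, fun a ha => ?_⟩
        · rw [Matrix.smul_apply, h2 a b hab, smul_zero]
        · rw [Pi.smul_apply, h3 a ha, Matrix.smul_mulVec, Pi.smul_apply] }
  have hC : P C := by
    constructor
    · refine ⟨0, L.zero_mem, fun a b _ => rfl, fun a ha => ?_⟩
      rw [Matrix.zero_mulVec, Pi.zero_apply, he, Pi.single_eq_of_ne]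
      rintro rfl
      omega
    · intro j hj y hy hyj w _
      -- only the coordinate `a₀` of `w` counts
      have h1 : ∀ a, h a = h a₀ - 1 → (y *ᵥ w) a = w a₀ * y a a₀ := by
        intro a ha
        change ∑ b, y a b * w b = _
        rw [Finset.sum_eq_single a₀]
        · ring
        · intro b _ hb
          have := htop b hb
          rw [hyj a b (by omega), zero_mul]
        · intro hh
          exact absurd (Finset.mem_univ _) hh
      by_cases hj1 : j = -1
      · subst hj1
        refine ⟨w a₀ • y, L.smul_mem _ hy, fun a b hab => ?_, fun a ha => ?_⟩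
        · rw [Matrix.smul_apply, hyj a b hab, smul_zero]
        · rw [h1 a ha, Matrix.smul_mulVec, Pi.smul_apply, smul_eq_mul, he,
            Matrix.mulVec_single_one, Matrix.col_apply]
      · refine ⟨0, L.zero_mem, fun a b _ => rfl, fun a ha => ?_⟩
        rw [h1 a ha, hyj a a₀ (by omega), mul_zero, Matrix.zero_mulVec, Pi.zero_apply]
  have hzC : z ∈ C := hB3 C hC (by rw [hBtop]; trivial)
  obtain ⟨x, hx, hx1, hx2⟩ := hzC
  refine ⟨x, hx, hx1, ?_⟩
  ext a
  by_cases ha : h a = h a₀ - 1
  · exact (hx2 a ha).symm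
  · rw [hz a ha, he, Matrix.mulVec_single_one, Matrix.col_apply]
    exact hx1 a a₀ (by omega)

/-- **Theorem (linear algebra).** -/
theorem eq_of_irreducible {h : n → ℤ} {G L : Submodule F (Matrix n n F)} (hLG : L ≤ G)
    (hbr : ∀ x ∈ L, ∀ y ∈ L, x * y - y * x ∈ L) (hD : dg F h ∈ L)
    (a₀ a₁ : n) (htop : ∀ a, a ≠ a₀ → h a < h a₀) (hbot : ∀ a, a ≠ a₁ → h a₁ < h a)
    (hirr : ∀ W : Submodule F (n → F), (∀ x ∈ L, ∀ w ∈ W, x *ᵥ w ∈ W) → W = ⊥ ∨ W = ⊤)
    (ht0 : ∀ y ∈ G, Hom h (-1) y → y *ᵥ Pi.single a₀ 1 = 0 → y = 0)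
    (ht1 : ∀ y ∈ G, Hom h 1 y → y *ᵥ Pi.single a₁ 1 = 0 → y = 0)
    (hgen : ∀ S : Submodule F (Matrix n n F), (∀ x ∈ S, ∀ y ∈ S, x * y - y * x ∈ S) →
      (∀ y ∈ G, Hom h (-1) y → y ∈ S) → (∀ y ∈ G, Hom h 1 y → y ∈ S) →
      G ≤ S ⊔ Submodule.span F {1})
    (hw : 1 ∈ G → (dg F h).trace ≠ 0) : L = G := by
  classical
  have hD' : ∀ x ∈ L, dg F h * x - x * dg F h ∈ L := fun x hx => hbr _ hD x hx
  -- degree `-1`
  have h1 : ∀ y ∈ G, Hom h (-1) y → y ∈ L := by
    intro y hy hy1
    obtain ⟨x, hx, hx1, hx2⟩ := first_step hbr hD' a₀ htop hirr (y *ᵥ Pi.single a₀ 1) (by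
      intro a ha
      rw [Matrix.mulVec_single_one, Matrix.col_apply]
      exact hy1 a a₀ (by omega))
    have h2 : y - x = 0 := by
      apply ht0 _ (G.sub_mem hy (hLG hx))
      · intro a b hab
        rw [Matrix.sub_apply, hy1 a b hab, hx1 a b hab, sub_zero]
      · rw [Matrix.sub_mulVec, hx2, sub_self]
    rw [sub_eq_zero.1 h2]
    exact hx
  -- degree `1`
  have hDn : ∀ x ∈ L, dg F (fun a => -h a) * x - x * dg F (fun a => -h a) ∈ L := by
    intro x hx
    have e : dg F (fun a => -h a) = -(dg F h) := by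
      unfold dg
      ext a b
      rw [Matrix.neg_apply, Matrix.diagonal_apply, Matrix.diagonal_apply]
      split_ifs <;> simp
    rw [e]
    have := L.neg_mem (hD' x hx)
    convert this using 1
    noncomm_ring
  have hneg : ∀ (j : ℤ) (x : Matrix n n F), Hom (fun a => -h a) j x ↔ Hom h (-j) x := by
    intro j x
    constructor
    · intro hx a b hab
      exact hx a b (by change ¬ (-h a = -h b + j); omega)
    · intro hx a b hab
      change ¬ (-h a = -h b + j) at hab
      exact hx a b (by omega)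
  have h2 : ∀ y ∈ G, Hom h 1 y → y ∈ L := by
    intro y hy hy1
    obtain ⟨x, hx, hx1, hx2⟩ := first_step (h := fun a => -h a) hbr hDn a₁
      (fun a ha => by have := hbot a ha; omega) hirr (y *ᵥ Pi.single a₁ 1) (by
      intro a ha
      rw [Matrix.mulVec_single_one, Matrix.col_apply]
      exact hy1 a a₁ (by omega))
    rw [hneg, neg_neg] at hx1
    have h2 : y - x = 0 := by
      apply ht1 _ (G.sub_mem hy (hLG hx))
      · intro a b hab
        rw [Matrix.sub_apply, hy1 a b hab, hx1 a b hab, sub_zero]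
      · rw [Matrix.sub_mulVec, hx2, sub_self]
    rw [sub_eq_zero.1 h2]
    exact hx
  -- the Lie algebra generated by these, with trace zero
  let S : Submodule F (Matrix n n F) := L ⊓ LinearMap.ker (Matrix.traceLinearMap n F F)
  have hS : ∀ x, x ∈ S ↔ x ∈ L ∧ x.trace = 0 := fun x => by
    rw [Submodule.mem_inf, LinearMap.mem_ker, Matrix.traceLinearMap_apply]
  have htr : ∀ (j : ℤ) (x : Matrix n n F), j ≠ 0 → Hom h j x → x.trace = 0 := by
    intro j x hj hx
    unfold Matrix.trace
    refine Finset.sum_eq_zero fun a _ => ?_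
    exact hx a a (by omega)
  have h3 := hgen S (by
    intro x hx y hy
    rw [hS] at hx hy ⊢
    refine ⟨hbr x hx.1 y hy.1, ?_⟩
    rw [Matrix.trace_sub, Matrix.trace_mul_comm, sub_self])
    (fun y hy hy1 => (hS y).2 ⟨h1 y hy hy1, htr _ y (by norm_num) hy1⟩)
    (fun y hy hy1 => (hS y).2 ⟨h2 y hy hy1, htr _ y (by norm_num) hy1⟩)
  -- the scalars
  have h4 : (1 : Matrix n n F) ∈ G → (1 : Matrix n n F) ∈ L := by
    intro h1G
    have hDG := h3 (hLG hD)
    obtain ⟨s, hs, c, hc, hsc⟩ := Submodule.mem_sup.1 hDG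
    obtain ⟨c, rfl⟩ := Submodule.mem_span_singleton.1 hc
    have hc0 : c ≠ 0 := by
      rintro rfl
      rw [zero_smul, add_zero] at hsc
      apply hw h1G
      rw [← hsc]
      exact ((hS s).1 hs).2
    have h5 : c • (1 : Matrix n n F) ∈ L := by
      have : c • (1 : Matrix n n F) = dg F h - s := by rw [← hsc]; abel
      rw [this]
      exact L.sub_mem hD ((hS s).1 hs).1
    have h6 := L.smul_mem c⁻¹ h5
    rwa [smul_smul, inv_mul_cancel₀ hc0, one_smul] at h6
  refine le_antisymm hLG fun x hx => ?_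
  obtain ⟨s, hs, c, hc, hsc⟩ := Submodule.mem_sup.1 (h3 hx)
  obtain ⟨c, rfl⟩ := Submodule.mem_span_singleton.1 hc
  have hsL := ((hS s).1 hs).1
  rw [← hsc]
  refine L.add_mem hsL ?_
  by_cases hc0 : c = 0
  · rw [hc0, zero_smul]
    exact L.zero_mem
  · refine L.smul_mem c (h4 ?_)
    have h5 : c • (1 : Matrix n n F) ∈ G := by
      have : c • (1 : Matrix n n F) = x - s := by rw [← hsc]; abel
      rw [this]
      exact G.sub_mem hx (hLG hsL)
    have h6 := G.smul_mem c⁻¹ h5
    rwa [smul_smul, inv_mul_cancel₀ hc0, one_smul] at h6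

end Pool.Agent.H851.CY
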