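import Pool.Agent.H851.Ext
import Pool.Graph.R_pool_sql_team_seeded_3dad9d7b.NH56.HY.Def

/-!
# Motives of Calabi-Yau type: definitions
-/

set_option autoImplicit false

namespace Pool.Agent.H851.CY

open Matrix

/-- A set `S` of matrices over the field `F` acts irreducibly on `F ^ n`. -/
def Irreducible (F : Type) [Field F] {n : Type} [Fintype n] (S : Set (Matrix n n F)) : Prop :=
  ∀ W : Submodule F (n → F), (∀ x ∈ S, ∀ w ∈ W, x *ᵥ w ∈ W) → W = ⊥ ∨ W = ⊤

/-- The matrices in `L`, with entries considered as elements of the larger field `F`. -/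
def matOver {k : Type} (F : Type) [Field k] [Field F] [Algebra k F] {n : Type}
    (L : Set (Matrix n n k)) : Set (Matrix n n F) := (fun x : Matrix n n k => x.map (algebraMap k F)) '' L

/-- A Hodge decomposition of `ℂ ^ n = ℚ ^ n ⊗ ℂ`: the columns of `P` are a basis adapted to the Hodge
decomposition, and the column `a` is of type `(p a, w - p a)`, where `w` is the weight. The columns `top`
and `bot` are the only ones with the largest and with the smallest value of `p`. -/
structure Hodge (n : Type) [Fintype n] [DecidableEq n] where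
  P : Matrix n n ℂ
  isUnit : IsUnit P
  p : n → ℤ
  top : n
  bot : n
  top_lt : ∀ a, a ≠ top → p a < p top
  bot_lt : ∀ a, a ≠ bot → p bot < p a

namespace Hodge

variable {n : Type} [Fintype n] [DecidableEq n] (H : Hodge n)

/-- The Hodge operator: it acts as `p` on the classes of type `(p, w - p)`. -/
noncomputable def D : Matrix n n ℂ := H.P * Matrix.diagonal (fun a => (H.p a : ℂ)) * H.P⁻¹

/-- `y` is of type `(j, -j)` in the Lie algebra of all matrices -/
def OfType (j : ℤ) (y : Matrix n n ℂ) : Prop := H.D * y - y * H.D = (j : ℂ) • y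

end Hodge

/-- The Lie algebra `𝔤` of a reductive group `G` over `ℚ` which contains the Mumford-Tate group, with
the following properties, where `𝔤 ^ (j, -j)` denotes the part of type `(j, -j)` of `𝔤 ⊗ ℂ`:
* `𝔤 ⊗ ℂ` is generated, as a Lie algebra, by the parts of type `(-1, 1)` and `(1, -1)` and by scalars;
* the elements of type `(-1, 1)` are determined by what they do with the line `H ^ (w, 0)`, and those of
  type `(1, -1)` by what they do with the line `H ^ (0, w)`;
* if `𝔤` contains the scalars then the weight is not zero. -/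
structure IsCalabiYau {n : Type} [Fintype n] [DecidableEq n] (H : Hodge n)
    (𝔤 : Submodule ℚ (Matrix n n ℚ)) : Prop where
  bracket : ∀ x ∈ 𝔤, ∀ y ∈ 𝔤, x * y - y * x ∈ 𝔤
  hodge : H.D ∈ ext ℂ 𝔤
  generated : ∀ S : Submodule ℂ (Matrix n n ℂ), (∀ x ∈ S, ∀ y ∈ S, x * y - y * x ∈ S) →
    (∀ y ∈ ext ℂ 𝔤, H.OfType (-1) y ∨ H.OfType 1 y → y ∈ S) →
    ext ℂ 𝔤 ≤ S ⊔ Submodule.span ℂ {1}
  torelli_top : ∀ y ∈ ext ℂ 𝔤, H.OfType (-1) y → y *ᵥ H.P.col H.top = 0 → y = 0
  torelli_bot : ∀ y ∈ ext ℂ 𝔤, H.OfType 1 y → y *ᵥ H.P.col H.bot = 0 → y = 0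
  weight : 1 ∈ ext ℂ 𝔤 → H.D.trace ≠ 0

/-- The properties of the `ℓ`-adic realization `ρ` of the motive which are used; `𝔪` is the Lie algebra of
its motivic Galois group and `𝔤` the larger Lie algebra of `IsCalabiYau`. The image of `Γ` is, up to finite
index, in the motivic Galois group, because motivated classes are Tate classes. The Hodge-Tate operator
(Sen's operator) at some place above `ℓ` is conjugate, by an element `g` of the motivic Galois group
over `ℂ_ℓ` (so `g` normalizes `𝔤`), to the image of the Hodge operator under an isomorphism `ι` of the field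
of complex numbers with `ℂ_ℓ`: Faltings, the comparison isomorphism is compatible with tensor products
and with motivated classes. It is in the extension to `ℂ_ℓ` of the Lie algebra of the image of `Γ`
(Sen). -/
structure IsRealization {n : Type} [Fintype n] [DecidableEq n] (H : Hodge n)
    (𝔤 𝔪 : Submodule ℚ (Matrix n n ℚ)) {ℓ : ℕ} [Fact ℓ.Prime] {Γ : Type} [Group Γ]
    (ρ : Γ →* Matrix n n ℚ_[ℓ]) : Prop where
  tate : NH56.HY.LieImage ρ Set.univ ⊆ ext ℚ_[ℓ] 𝔪
  sen : ∃ (ι : ℂ ≃+* ℂ_[ℓ]) (g : Matrix n n ℂ_[ℓ]), IsUnit g ∧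
    (∀ x, x ∈ ext ℂ_[ℓ] 𝔤 ↔ g * x * g⁻¹ ∈ ext ℂ_[ℓ] 𝔤) ∧
    g * H.D.map ι * g⁻¹ ∈ Submodule.span ℂ_[ℓ] (matOver ℂ_[ℓ] (NH56.HY.LieImage ρ Set.univ))

end Pool.Agent.H851.CY
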