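import Pool.Agent.H851.LI
import Pool.Agent.H851.CY.Core
import Pool.Agent.H851.CY.Defs
import Pool.Graph.R_pool_sql_team_seeded_3dad9d7b.NH56.HY.Mtd

/-!
# Motives of Calabi-Yau type: proofs
-/

set_option autoImplicit false
set_option linter.unusedSectionVars false

namespace Pool.Agent.H851.CY

open Matrix
open Pool.Agent.NH56.HY (LieImage mtLie)

variable {n : Type} [Fintype n] [DecidableEq n] (H : Hodge n)

theorem pinv_mul : H.P⁻¹ * H.P = 1 :=
  Matrix.nonsing_inv_mul _ ((Matrix.isUnit_iff_isUnit_det _).1 H.isUnit)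

theorem mul_pinv : H.P * H.P⁻¹ = 1 :=
  Matrix.mul_nonsing_inv _ ((Matrix.isUnit_iff_isUnit_det _).1 H.isUnit)

/-- conjugation with `P` -/
def pull (L : Submodule ℂ (Matrix n n ℂ)) : Submodule ℂ (Matrix n n ℂ) where
  carrier := {x | H.P * x * H.P⁻¹ ∈ L}
  add_mem' := by
    intro a b ha hb
    have := L.add_mem ha hb
    rwa [← add_mul, ← mul_add] at this
  zero_mem' := by
    change H.P * 0 * H.P⁻¹ ∈ L
    rw [mul_zero, zero_mul]
    exact L.zero_mem
  smul_mem' := by
    intro c a ha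
    change H.P * (c • a) * H.P⁻¹ ∈ L
    rw [mul_smul_comm, smul_mul_assoc]
    exact L.smul_mem c ha

theorem mem_pull (L : Submodule ℂ (Matrix n n ℂ)) (x : Matrix n n ℂ) :
    x ∈ pull H L ↔ H.P * x * H.P⁻¹ ∈ L := Iff.rfl

theorem conj_mul (x y : Matrix n n ℂ) :
    (H.P * x * H.P⁻¹) * (H.P * y * H.P⁻¹) = H.P * (x * y) * H.P⁻¹ := by
  calc (H.P * x * H.P⁻¹) * (H.P * y * H.P⁻¹) = H.P * x * (H.P⁻¹ * H.P) * y * H.P⁻¹ := by
        simp only [mul_assoc]
    _ = H.P * (x * y) * H.P⁻¹ := by rw [pinv_mul, mul_one, mul_assoc H.P x y]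

theorem conj_back (x : Matrix n n ℂ) : H.P * (H.P⁻¹ * x * H.P) * H.P⁻¹ = x := by
  calc H.P * (H.P⁻¹ * x * H.P) * H.P⁻¹ = (H.P * H.P⁻¹) * x * (H.P * H.P⁻¹) := by
        simp only [mul_assoc]
    _ = x := by rw [mul_pinv, one_mul, mul_one]

theorem conj_forth (x : Matrix n n ℂ) : H.P⁻¹ * (H.P * x * H.P⁻¹) * H.P = x := by
  calc H.P⁻¹ * (H.P * x * H.P⁻¹) * H.P = (H.P⁻¹ * H.P) * x * (H.P⁻¹ * H.P) := by
        simp only [mul_assoc]
    _ = x := by rw [pinv_mul, one_mul, mul_one]

theorem D_eq : H.D = H.P * dg ℂ H.p * H.P⁻¹ := rfl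

theorem hom_conj (j : ℤ) (x : Matrix n n ℂ) :
    Hom H.p j x ↔ H.OfType j (H.P * x * H.P⁻¹) := by
  rw [hom_iff]
  unfold Hodge.OfType
  rw [D_eq, conj_mul, conj_mul]
  have e1 : H.P * (dg ℂ H.p * x) * H.P⁻¹ - H.P * (x * dg ℂ H.p) * H.P⁻¹ =
      H.P * (dg ℂ H.p * x - x * dg ℂ H.p) * H.P⁻¹ := by
    rw [mul_sub, sub_mul]
  have e2 : (j : ℂ) • (H.P * x * H.P⁻¹) = H.P * ((j : ℂ) • x) * H.P⁻¹ := by
    rw [mul_smul_comm, smul_mul_assoc]
  rw [e1, e2]
  constructor
  · intro h
    rw [h]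
  · intro h
    have := congrArg (fun y => H.P⁻¹ * y * H.P) h
    simpa only [conj_forth] using this

/-- **Theorem.** An irreducible complex Lie algebra between the Hodge operator and `𝔤 ⊗ ℂ` is
`𝔤 ⊗ ℂ`. -/
theorem complex_eq {𝔤 : Submodule ℚ (Matrix n n ℚ)} (hG : IsCalabiYau H 𝔤)
    (L : Submodule ℂ (Matrix n n ℂ)) (hL : L ≤ ext ℂ 𝔤)
    (hbr : ∀ x ∈ L, ∀ y ∈ L, x * y - y * x ∈ L) (hD : H.D ∈ L)
    (hirr : Irreducible ℂ (L : Set (Matrix n n ℂ))) : L = ext ℂ 𝔤 := by
  have hcol : ∀ (a : n) (y : Matrix n n ℂ), y *ᵥ Pi.single a 1 = 0 →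
      (H.P * y * H.P⁻¹) *ᵥ H.P.col a = 0 := by
    intro a y hy
    rw [← Matrix.mulVec_single_one, Matrix.mulVec_mulVec, mul_assoc, pinv_mul, mul_one,
      ← Matrix.mulVec_mulVec, hy, Matrix.mulVec_zero]
  have key : pull H L = pull H (ext ℂ 𝔤) := by
    refine eq_of_irreducible (h := H.p) (fun x hx => hL hx) ?_ ?_ H.top H.bot H.top_lt H.bot_lt ?_
      ?_ ?_ ?_ ?_
    · intro x hx y hy
      rw [mem_pull] at hx hy ⊢
      have := hbr _ hx _ hy
      rwa [conj_mul, conj_mul, ← sub_mul, ← mul_sub] at this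
    · rw [mem_pull, ← D_eq]
      exact hD
    · intro W hW
      -- transport `W`
      let e : (n → ℂ) ≃ₗ[ℂ] (n → ℂ) :=
        LinearEquiv.ofLinearMap (Matrix.toLin' H.P) (Matrix.toLin' H.P⁻¹)
          (by rw [← Matrix.toLin'_mul, mul_pinv, Matrix.toLin'_one])
          (by rw [← Matrix.toLin'_mul, pinv_mul, Matrix.toLin'_one])
      have he : ∀ w, e w = H.P *ᵥ w := fun w => rfl
      have h1 := hirr (W.map (e : (n → ℂ) →ₗ[ℂ] (n → ℂ))) (by
        rintro x hx _ ⟨w, hw, rfl⟩
        refine ⟨(H.P⁻¹ * x * H.P) *ᵥ w, hW _ ?_ w hw, ?_⟩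
        · rw [mem_pull, conj_back]
          exact hx
        · change H.P *ᵥ ((H.P⁻¹ * x * H.P) *ᵥ w) = x *ᵥ (H.P *ᵥ w)
          rw [Matrix.mulVec_mulVec, Matrix.mulVec_mulVec, mul_assoc, ← mul_assoc H.P, mul_pinv,
            one_mul])
      rcases h1 with h1 | h1
      · left
        exact Submodule.map_eq_bot_iff.1 h1
      · right
        rw [eq_top_iff]
        intro w _
        have h2 : e w ∈ W.map (e : (n → ℂ) →ₗ[ℂ] (n → ℂ)) := by rw [h1]; trivial
        obtain ⟨w', hw', hww⟩ := h2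
        have : w' = w := e.injective hww
        rwa [← this]
    · intro y hy hy1 hy2
      rw [mem_pull] at hy
      have h1 := hG.torelli_top _ hy ((hom_conj H (-1) y).1 hy1) (hcol _ y hy2)
      rw [← conj_forth H y, h1, mul_zero, zero_mul]
    · intro y hy hy1 hy2
      rw [mem_pull] at hy
      have h1 := hG.torelli_bot _ hy ((hom_conj H 1 y).1 hy1) (hcol _ y hy2)
      rw [← conj_forth H y, h1, mul_zero, zero_mul]
    · intro S hS hS1 hS2 x hx
      -- transport `S`
      let S' : Submodule ℂ (Matrix n n ℂ) :=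
        { carrier := {y | H.P⁻¹ * y * H.P ∈ S}
          add_mem' := by
            intro a b ha hb
            have := S.add_mem ha hb
            rwa [← add_mul, ← mul_add] at this
          zero_mem' := by
            change H.P⁻¹ * 0 * H.P ∈ S
            rw [mul_zero, zero_mul]
            exact S.zero_mem
          smul_mem' := by
            intro c a ha
            change H.P⁻¹ * (c • a) * H.P ∈ S
            rw [mul_smul_comm, smul_mul_assoc]
            exact S.smul_mem c ha }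
      have h1 := hG.generated S' (by
        intro a ha b hb
        change H.P⁻¹ * (a * b - b * a) * H.P ∈ S
        have := hS _ ha _ hb
        have e : ∀ a b : Matrix n n ℂ, (H.P⁻¹ * a * H.P) * (H.P⁻¹ * b * H.P) =
            H.P⁻¹ * (a * b) * H.P := by
          intro a b
          calc (H.P⁻¹ * a * H.P) * (H.P⁻¹ * b * H.P) = H.P⁻¹ * a * (H.P * H.P⁻¹) * b * H.P := by
                simp only [mul_assoc]
            _ = _ := by rw [mul_pinv, mul_one, mul_assoc H.P⁻¹ a b]
        rwa [e, e, ← sub_mul, ← mul_sub] at this) (by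
        intro y hy hy1
        change H.P⁻¹ * y * H.P ∈ S
        have e : H.P * (H.P⁻¹ * y * H.P) * H.P⁻¹ = y := conj_back H y
        have e' : H.P⁻¹ * y * H.P ∈ pull H (ext ℂ 𝔤) := by
          rw [mem_pull, e]
          exact hy
        rcases hy1 with hy1 | hy1
        · exact hS1 _ e' ((hom_conj H _ _).2 (by rw [e]; exact hy1))
        · exact hS2 _ e' ((hom_conj H _ _).2 (by rw [e]; exact hy1)))
      obtain ⟨s, hs, c, hc, hsc⟩ := Submodule.mem_sup.1 (h1 hx)
      obtain ⟨c, rfl⟩ := Submodule.mem_span_singleton.1 hc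
      rw [← conj_forth H x, ← hsc, mul_add, add_mul]
      refine Submodule.add_mem_sup hs ?_
      rw [mul_smul_comm, mul_one, smul_mul_assoc, pinv_mul]
      exact Submodule.smul_mem _ _ (Submodule.mem_span_singleton_self _)
    · intro h1 h2
      rw [mem_pull, mul_one, mul_pinv] at h1
      apply hG.weight h1
      rw [D_eq, Matrix.trace_mul_comm, ← mul_assoc, pinv_mul, one_mul]
      exact h2
  apply le_antisymm hL
  intro x hx
  have h1 : H.P⁻¹ * x * H.P ∈ pull H (ext ℂ 𝔤) := by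
    rw [mem_pull, conj_back]
    exact hx
  rw [← key, mem_pull, conj_back] at h1
  exact h1

/-- the case of the Mumford-Tate group -/
theorem hodge_eq {𝔤 : Submodule ℚ (Matrix n n ℚ)} (hG : IsCalabiYau H 𝔤)
    (hirr : Irreducible ℂ (matOver ℂ (mtLie H.D : Set (Matrix n n ℚ)))) : mtLie H.D = 𝔤 := by
  obtain ⟨h1, h2⟩ := Pool.Agent.NH56.HY.t_MTD n H.D
  have h3 : mtLie H.D ≤ 𝔤 := sInf_le ⟨hG.bracket, hG.hodge⟩
  have h4 := complex_eq H hG (ext ℂ (mtLie H.D)) (ext_mono h3) (fun x hx y hy => ext_bracket h1 hx hy)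
    h2 (fun W hW => hirr W (fun x hx w hw => by
      obtain ⟨y, hy, rfl⟩ := hx
      exact hW _ (mem_ext hy) w hw))
  apply le_antisymm h3
  intro x hx
  have h5 := mem_ext (F := ℂ) hx
  rw [← h4] at h5
  exact mem_of_ext h5

section adic

variable {ℓ : ℕ} [Fact ℓ.Prime] {Γ : Type} [Group Γ] (ρ : Γ →* Matrix n n ℚ_[ℓ])

/-- semilinear transport of matrices -/
theorem map_ext_iff (ι : ℂ ≃+* ℂ_[ℓ]) {𝔤 : Submodule ℚ (Matrix n n ℚ)} (x : Matrix n n ℂ) :
    x ∈ ext ℂ 𝔤 ↔ x.map ι ∈ (ext ℂ_[ℓ] 𝔤 : Submodule ℂ_[ℓ] (Matrix n n ℂ_[ℓ])) := by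
  constructor
  · intro hx
    refine ext_induction (p := fun x => x.map ι ∈
      (ext ℂ_[ℓ] 𝔤 : Submodule ℂ_[ℓ] (Matrix n n ℂ_[ℓ]))) ?_ ?_ ?_ ?_ hx
    · intro y hy
      have e : (y.map (algebraMap ℚ ℂ)).map ι = y.map (algebraMap ℚ ℂ_[ℓ]) := by
        ext i j
        rw [Matrix.map_apply, Matrix.map_apply, Matrix.map_apply, eq_ratCast, eq_ratCast,
          map_ratCast]
      rw [e]
      exact mem_ext hy
    · have e : (0 : Matrix n n ℂ).map ι = 0 := by
        ext i j
        simp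
      rw [e]
      exact Submodule.zero_mem _
    · intro a b ha hb
      have e : (a + b).map ι = a.map ι + b.map ι := by
        ext i j
        simp
      rw [e]
      exact Submodule.add_mem _ ha hb
    · intro c a ha
      have e : (c • a).map ι = ι c • a.map ι := by
        ext i j
        simp
      rw [e]
      exact Submodule.smul_mem _ _ ha
  · intro hx
    have key : ∀ y ∈ (ext ℂ_[ℓ] 𝔤 : Submodule ℂ_[ℓ] (Matrix n n ℂ_[ℓ])),
        y.map ι.symm ∈ ext ℂ 𝔤 := by
      intro y hy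
      refine ext_induction (p := fun x => x.map ι.symm ∈ ext ℂ 𝔤) ?_ ?_ ?_ ?_ hy
      · intro y hy
        have e : (y.map (algebraMap ℚ ℂ_[ℓ])).map ι.symm = y.map (algebraMap ℚ ℂ) := by
          ext i j
          rw [Matrix.map_apply, Matrix.map_apply, Matrix.map_apply, eq_ratCast, eq_ratCast,
            map_ratCast]
        rw [e]
        exact mem_ext hy
      · have e : (0 : Matrix n n ℂ_[ℓ]).map ι.symm = 0 := by
          ext i j
          simp
        rw [e]
        exact Submodule.zero_mem _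
      · intro a b ha hb
        have e : (a + b).map ι.symm = a.map ι.symm + b.map ι.symm := by
          ext i j
          simp
        rw [e]
        exact Submodule.add_mem _ ha hb
      · intro c a ha
        have e : (c • a).map ι.symm = ι.symm c • a.map ι.symm := by
          ext i j
          simp
        rw [e]
        exact Submodule.smul_mem _ _ ha
    have h1 := key _ hx
    have e : (x.map ι).map ι.symm = x := by
      ext i j
      simp
    rwa [e] at h1

/-- the case of the Galois group -/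
theorem galois_eq {𝔤 𝔪 : Submodule ℚ (Matrix n n ℚ)} (hG : IsCalabiYau H 𝔤) (h𝔪 : 𝔪 ≤ 𝔤)
    (hR : IsRealization H 𝔤 𝔪 ρ)
    (hirr : Irreducible ℂ_[ℓ] (matOver ℂ_[ℓ] (LieImage ρ Set.univ))) :
    LieImage ρ Set.univ = ext ℚ_[ℓ] 𝔤 := by
  obtain ⟨ι, g, hg, hnorm, hsen⟩ := hR.sen
  have hgi : g⁻¹ * g = 1 := Matrix.nonsing_inv_mul _ ((Matrix.isUnit_iff_isUnit_det _).1 hg)
  have hig : g * g⁻¹ = 1 := Matrix.mul_nonsing_inv _ ((Matrix.isUnit_iff_isUnit_det _).1 hg)
  -- the Lie algebra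
  let LL : Submodule ℚ_[ℓ] (Matrix n n ℚ_[ℓ]) := LI ρ ⊤
  have hLL : ∀ x, x ∈ LL ↔ x ∈ LieImage ρ Set.univ := fun x => by
    rw [mem_LI, Subgroup.coe_top]
  have hLLs : (LL : Set (Matrix n n ℚ_[ℓ])) = LieImage ρ Set.univ := Set.ext hLL
  have hbr : ∀ x ∈ LL, ∀ y ∈ LL, x * y - y * x ∈ LL := fun x hx y hy => li_bracket ρ ⊤ hx hy
  have hspan : Submodule.span ℂ_[ℓ] (matOver ℂ_[ℓ] (LieImage ρ Set.univ)) = ext ℂ_[ℓ] LL := by
    rw [← hLLs]
    rfl
  rw [hspan] at hsen
  have hLg : LL ≤ ext ℚ_[ℓ] 𝔤 := fun x hx => ext_mono h𝔪 (hR.tate ((hLL x).1 hx))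
  have hLg' : ext ℂ_[ℓ] LL ≤ (ext ℂ_[ℓ] 𝔤 : Submodule ℂ_[ℓ] (Matrix n n ℂ_[ℓ])) := by
    have h1 := ext_mono (F := ℂ_[ℓ]) hLg
    rwa [ext_ext] at h1
  have hmul : ∀ x y : Matrix n n ℂ, (x * y).map ι = x.map ι * y.map ι := fun x y =>
    Matrix.map_mul
  have hsub : ∀ x y : Matrix n n ℂ, (x - y).map ι = x.map ι - y.map ι := fun x y => by
    ext i j
    simp
  -- the complex Lie algebra
  let L : Submodule ℂ (Matrix n n ℂ) :=
    { carrier := {x | g * x.map ι * g⁻¹ ∈ ext ℂ_[ℓ] LL}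
      add_mem' := by
        intro a b ha hb
        have := (ext ℂ_[ℓ] LL).add_mem ha hb
        rw [← add_mul, ← mul_add] at this
        have e : (a + b).map ι = a.map ι + b.map ι := by
          ext i j
          simp
        change g * (a + b).map ι * g⁻¹ ∈ ext ℂ_[ℓ] LL
        rw [e]
        exact this
      zero_mem' := by
        change g * (0 : Matrix n n ℂ).map ι * g⁻¹ ∈ ext ℂ_[ℓ] LL
        have e : (0 : Matrix n n ℂ).map ι = 0 := by
          ext i j
          simp
        rw [e, mul_zero, zero_mul]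
        exact Submodule.zero_mem _
      smul_mem' := by
        intro c a ha
        change g * (c • a).map ι * g⁻¹ ∈ ext ℂ_[ℓ] LL
        have e : (c • a).map ι = ι c • a.map ι := by
          ext i j
          simp
        rw [e, mul_smul_comm, smul_mul_assoc]
        exact Submodule.smul_mem _ _ ha }
  have hL : ∀ x, x ∈ L ↔ g * x.map ι * g⁻¹ ∈ ext ℂ_[ℓ] LL := fun x => Iff.rfl
  have hcm : ∀ x y : Matrix n n ℂ_[ℓ], (g * x * g⁻¹) * (g * y * g⁻¹) = g * (x * y) * g⁻¹ := by
    intro x y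
    calc (g * x * g⁻¹) * (g * y * g⁻¹) = g * x * (g⁻¹ * g) * y * g⁻¹ := by simp only [mul_assoc]
      _ = _ := by rw [hgi, mul_one, mul_assoc g x y]
  have hback : ∀ x : Matrix n n ℂ_[ℓ], g * (g⁻¹ * x * g) * g⁻¹ = x := by
    intro x
    calc g * (g⁻¹ * x * g) * g⁻¹ = (g * g⁻¹) * x * (g * g⁻¹) := by simp only [mul_assoc]
      _ = x := by rw [hig, one_mul, mul_one]
  have hsymm : ∀ x : Matrix n n ℂ_[ℓ], (x.map ι.symm).map ι = x := by
    intro x
    ext i j
    simp
  have h1 : L = ext ℂ 𝔤 := by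
    apply complex_eq H hG L
    · intro x hx
      rw [map_ext_iff ι, hnorm]
      exact hLg' hx
    · intro x hx y hy
      rw [hL] at hx hy ⊢
      rw [hsub, hmul, hmul, mul_sub, sub_mul, ← hcm, ← hcm]
      exact ext_bracket hbr hx hy
    · exact hsen
    · intro W hW
      -- transport of subspaces
      let W' : Submodule ℂ_[ℓ] (n → ℂ_[ℓ]) :=
        { carrier := {w | (fun a => ι.symm ((g⁻¹ *ᵥ w) a)) ∈ W}
          add_mem' := by
            intro a b ha hb
            have := W.add_mem ha hb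
            change (fun i => ι.symm ((g⁻¹ *ᵥ (a + b)) i)) ∈ W
            convert this using 1
            ext i
            rw [Matrix.mulVec_add, Pi.add_apply, map_add]
            rfl
          zero_mem' := by
            change (fun i => ι.symm ((g⁻¹ *ᵥ (0 : n → ℂ_[ℓ])) i)) ∈ W
            convert W.zero_mem using 1
            ext i
            rw [Matrix.mulVec_zero, Pi.zero_apply, map_zero]
            rfl
          smul_mem' := by
            intro c a ha
            have := W.smul_mem (ι.symm c) ha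
            change (fun i => ι.symm ((g⁻¹ *ᵥ (c • a)) i)) ∈ W
            convert this using 1
            ext i
            rw [Matrix.mulVec_smul, Pi.smul_apply, smul_eq_mul, map_mul]
            rfl }
      have hW' : ∀ w, w ∈ W' ↔ (fun a => ι.symm ((g⁻¹ *ᵥ w) a)) ∈ W := fun w => Iff.rfl
      have h2 := hirr W' (by
        rintro _ ⟨x, hx, rfl⟩ w hw
        rw [hW'] at hw ⊢
        have hx' : (g⁻¹ * x.map (algebraMap ℚ_[ℓ] ℂ_[ℓ]) * g).map ι.symm ∈ L := by
          rw [hL, hsymm, hback]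
          exact mem_ext ((hLL x).2 hx)
        have h3 := hW _ hx' _ hw
        convert h3 using 1
        ext a
        have e1 : g⁻¹ *ᵥ (x.map (algebraMap ℚ_[ℓ] ℂ_[ℓ]) *ᵥ w) =
            (g⁻¹ * x.map (algebraMap ℚ_[ℓ] ℂ_[ℓ]) * g) *ᵥ (g⁻¹ *ᵥ w) := by
          rw [Matrix.mulVec_mulVec, Matrix.mulVec_mulVec, mul_assoc (_ * _) g, hig, mul_one]
        rw [e1]
        change ι.symm (∑ b, _ * _) = ∑ b, ι.symm _ * ι.symm _
        rw [map_sum]
        simp only [map_mul])
      rcases h2 with h2 | h2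
      · left
        rw [eq_bot_iff]
        intro w hw
        have h3 : g *ᵥ (fun a => ι (w a)) ∈ W' := by
          rw [hW', Matrix.mulVec_mulVec, hgi, Matrix.one_mulVec]
          simpa using hw
        rw [h2, Submodule.mem_bot] at h3
        have h4 : (fun a => ι (w a)) = 0 := by
          have := congrArg (fun v => g⁻¹ *ᵥ v) h3
          simpa only [Matrix.mulVec_mulVec, hgi, Matrix.one_mulVec, Matrix.mulVec_zero] using this
        rw [Submodule.mem_bot]
        ext a
        have := congrFun h4 a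
        exact ι.injective (by rw [this]; simp)
      · right
        rw [eq_top_iff]
        intro w _
        have h3 : g *ᵥ (fun a => ι (w a)) ∈ W' := by rw [h2]; trivial
        rw [hW', Matrix.mulVec_mulVec, hgi, Matrix.one_mulVec] at h3
        simpa using h3
  -- conclusion
  have h2 : (ext ℂ_[ℓ] 𝔤 : Submodule ℂ_[ℓ] (Matrix n n ℂ_[ℓ])) ≤ ext ℂ_[ℓ] LL := by
    intro y hy
    have h3 : g⁻¹ * y * g ∈ (ext ℂ_[ℓ] 𝔤 : Submodule ℂ_[ℓ] (Matrix n n ℂ_[ℓ])) := by
      rw [hnorm, hback]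
      exact hy
    have h4 : (g⁻¹ * y * g).map ι.symm ∈ L := by
      rw [h1, map_ext_iff ι, hsymm]
      exact h3
    rw [hL, hsymm, hback] at h4
    exact h4
  rw [← hLLs]
  apply congrArg
  apply le_antisymm hLg
  intro x hx
  apply mem_of_ext (F := ℂ_[ℓ])
  apply h2
  rw [← ext_ext (E := ℚ_[ℓ])]
  exact mem_ext hx

end adic

end Pool.Agent.H851.CY

namespace Pool.Agent.H851.CY

open Matrix
open Pool.Agent.NH56.HY (LieImage mtLie)

/-- irreducibility does not depend on the field -/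
theorem irr_transport {n : Type} [Fintype n] [DecidableEq n] {ℓ : ℕ} [Fact ℓ.Prime]
    (ι : ℂ ≃+* ℂ_[ℓ]) (𝔪 : Submodule ℚ (Matrix n n ℚ))
    (hirr : Irreducible ℂ (matOver ℂ (𝔪 : Set (Matrix n n ℚ)))) :
    Irreducible ℂ_[ℓ] (matOver ℂ_[ℓ] (ext ℚ_[ℓ] 𝔪 : Set (Matrix n n ℚ_[ℓ]))) := by
  intro W hW
  let W' : Submodule ℂ (n → ℂ) :=
    { carrier := {w | (fun a => ι (w a)) ∈ W}
      add_mem' := by
        intro a b ha hb
        have := W.add_mem ha hb
        change (fun i => ι ((a + b) i)) ∈ W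
        convert this using 1
        ext i
        rw [Pi.add_apply, map_add]
        rfl
      zero_mem' := by
        change (fun i => ι ((0 : n → ℂ) i)) ∈ W
        convert W.zero_mem using 1
        ext i
        rw [Pi.zero_apply, map_zero]
        rfl
      smul_mem' := by
        intro c a ha
        have := W.smul_mem (ι c) ha
        change (fun i => ι ((c • a) i)) ∈ W
        convert this using 1
        ext i
        rw [Pi.smul_apply, smul_eq_mul, map_mul]
        rfl }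
  have hW' : ∀ w, w ∈ W' ↔ (fun a => ι (w a)) ∈ W := fun w => Iff.rfl
  have h1 := hirr W' (by
    rintro _ ⟨x, hx, rfl⟩ w hw
    rw [hW'] at hw ⊢
    have h2 := hW ((x.map (algebraMap ℚ ℚ_[ℓ])).map (algebraMap ℚ_[ℓ] ℂ_[ℓ]))
      ⟨_, mem_ext hx, rfl⟩ _ hw
    convert h2 using 1
    ext a
    rw [map_map']
    change ι (∑ b, _ * _) = ∑ b, _ * _
    rw [map_sum]
    refine Finset.sum_congr rfl fun b _ => ?_
    have e : ι ((algebraMap ℚ ℂ) (x a b)) = (algebraMap ℚ ℂ_[ℓ]) (x a b) := by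
      rw [eq_ratCast, eq_ratCast, map_ratCast]
    rw [map_mul]
    exact congrArg (· * ι (w b)) e)
  rcases h1 with h1 | h1
  · left
    rw [eq_bot_iff]
    intro w hw
    have h3 : (fun a => ι.symm (w a)) ∈ W' := by
      rw [hW']
      simpa using hw
    rw [h1, Submodule.mem_bot] at h3
    rw [Submodule.mem_bot]
    ext a
    have := congrFun h3 a
    exact ι.symm.injective (by rw [this]; simp)
  · right
    rw [eq_top_iff]
    intro w _
    have h3 : (fun a => ι.symm (w a)) ∈ W' := by rw [h1]; trivial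
    rw [hW'] at h3
    simpa using h3

end Pool.Agent.H851.CY
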